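import Pool.Agent.FGT.Stmts

/-!
Row LIN of table fgt: an infinite torsion group does not have linear growth.
-/

namespace Pool.Agent.FGT.H77

open Filter Topology
open scoped Pointwise

universe u

/-- words in `S` -/
def Wd {G : Type u} (S : Finset G) (w : List G) : Prop := ∀ g ∈ w, g ∈ S

/-- the value of a word -/
def val {G : Type u} (S : Finset G) (e : G → ℕ) (w : List G) : ℕ :=
  Nat.ofDigits (S.card + 1) (w.map e)

/-- normal words -/
def Nm {G : Type u} [Group G] (S : Finset G) (e : G → ℕ) (w : List G) : Prop :=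
  Wd S w ∧ ∀ w', Wd S w' → w'.prod = w.prod →
    w.length < w'.length ∨ (w.length = w'.length ∧ val S e w ≤ val S e w')

theorem nm_factor {G : Type u} [Group G] (S : Finset G) (e : G → ℕ) (a b c : List G)
    (h : Nm S e (a ++ b ++ c)) : Nm S e b := by
  obtain ⟨hw, hmin⟩ := h
  refine ⟨fun g hg => hw g (by simp [hg]), fun b' hb' hp => ?_⟩
  have h1 := hmin (a ++ b' ++ c) (by
    intro g hg
    simp only [List.mem_append] at hg
    rcases hg with (hg | hg) | hg
    · exact hw g (by simp [hg])
    · exact hb' g hg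
    · exact hw g (by simp [hg])) (by simp [hp])
  rcases h1 with h1 | ⟨h1, h2⟩
  · left
    simp only [List.length_append] at h1
    omega
  · right
    have h3 : b.length = b'.length := by
      simp only [List.length_append] at h1
      omega
    refine ⟨h3, ?_⟩
    unfold val at h2 ⊢
    simp only [List.map_append, Nat.ofDigits_append, List.length_append, List.length_map] at h2
    rw [h3] at h2
    have h4 : (S.card + 1) ^ a.length * Nat.ofDigits (S.card + 1) (b.map e) ≤
        (S.card + 1) ^ a.length * Nat.ofDigits (S.card + 1) (b'.map e) := by omega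
    exact Nat.le_of_mul_le_mul_left h4 (by positivity)

theorem nm_inj {G : Type u} [Group G] (S : Finset G) (e : G → ℕ) (he : Set.InjOn e (S : Set G))
    (hlt : ∀ g, e g < S.card + 1) (hS : 0 < S.card) (w w' : List G) (h : Nm S e w)
    (h' : Nm S e w') (hp : w.prod = w'.prod) : w = w' := by
  have h1 := h.2 w' h'.1 hp.symm
  have h2 := h'.2 w h.1 hp
  have h3 : w.length = w'.length := by
    rcases h1 with h1 | h1 <;> rcases h2 with h2 | h2 <;> omega
  have h4 : val S e w = val S e w' := by
    rcases h1 with h1 | h1 <;> rcases h2 with h2 | h2 <;> omega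
  have h5 : w.map e = w'.map e := by
    apply Nat.ofDigits_inj_of_len_eq (b := S.card + 1) (by omega) (by simp [h3])
    · intro l hl
      obtain ⟨g, -, rfl⟩ := List.mem_map.1 hl
      exact hlt g
    · intro l hl
      obtain ⟨g, -, rfl⟩ := List.mem_map.1 hl
      exact hlt g
    · exact h4
  apply List.ext_getElem h3
  intro i hi hi'
  apply he
  · exact h.1 _ (List.getElem_mem hi)
  · exact h'.1 _ (List.getElem_mem hi')
  · have h6 : (w.map e)[i]'(by simpa using hi) = (w'.map e)[i]'(by simpa using hi') := by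
      simp only [h5]
    simpa using h6

theorem nm_exists {G : Type u} [Group G] (S : Finset G) (e : G → ℕ) (w0 : List G)
    (hw0 : Wd S w0) : ∃ w, Nm S e w ∧ w.prod = w0.prod := by
  classical
  have hP : ∃ n, ∃ w, Wd S w ∧ w.prod = w0.prod ∧ w.length = n := ⟨_, w0, hw0, rfl, rfl⟩
  have hQ : ∃ m, ∃ w, Wd S w ∧ w.prod = w0.prod ∧ w.length = Nat.find hP ∧ val S e w = m := by
    obtain ⟨w, h1, h2, h3⟩ := Nat.find_spec hP
    exact ⟨_, w, h1, h2, h3, rfl⟩
  obtain ⟨w, h1, h2, h3, h4⟩ := Nat.find_spec hQ
  refine ⟨w, ⟨h1, fun w' hw' hp => ?_⟩, h2⟩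
  have h5 : Nat.find hP ≤ w'.length := Nat.find_min' hP ⟨w', hw', hp.trans h2, rfl⟩
  rcases h5.lt_or_eq with h6 | h6
  · left
    omega
  · right
    refine ⟨by omega, ?_⟩
    rw [h4]
    exact Nat.find_min' hQ ⟨w', hw', hp.trans h2, h6.symm, rfl⟩

theorem word_mem {G : Type u} [Group G] (S : Finset G) :
    ∀ w : List G, Wd S w → w.prod ∈ (S : Set G) ^ w.length
  | [], _ => by simp
  | (g :: w), h => by
    rw [List.prod_cons, List.length_cons, pow_succ']
    exact Set.mul_mem_mul (h g (by simp)) (word_mem S w fun x hx => h x (by simp [hx]))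

theorem mem_word {G : Type u} [Group G] (S : Finset G) :
    ∀ (n : ℕ) (g : G), g ∈ (S : Set G) ^ n → ∃ w, Wd S w ∧ w.length = n ∧ w.prod = g
  | 0, g => fun h => by
    rw [pow_zero, Set.mem_one] at h
    exact ⟨[], by intro x hx; simp at hx, rfl, by simp [h]⟩
  | (n + 1), g => fun h => by
    rw [pow_succ'] at h
    obtain ⟨a, ha, b, hb, rfl⟩ := h
    obtain ⟨w, h1, h2, h3⟩ := mem_word S n b hb
    refine ⟨a :: w, ?_, by simp [h2], by simp [h3]⟩
    intro x hx
    rcases List.mem_cons.1 hx with rfl | hx
    · exact ha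
    · exact h1 x hx

theorem all_words {G : Type u} [Group G] (S : Finset G) (hinv : ∀ s ∈ S, s⁻¹ ∈ S)
    (hcl : Subgroup.closure (S : Set G) = ⊤) (g : G) : ∃ w, Wd S w ∧ w.prod = g := by
  have hg : g ∈ Subgroup.closure (S : Set G) := by
    rw [hcl]
    exact Subgroup.mem_top g
  induction hg using Subgroup.closure_induction with
  | mem s hs => exact ⟨[s], by intro x hx; rw [List.mem_singleton] at hx; rw [hx]; exact hs, by simp⟩
  | one => exact ⟨[], by intro x hx; simp at hx, by simp⟩
  | mul a b _ _ ha hb =>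
    obtain ⟨w, hw, rfl⟩ := ha
    obtain ⟨w', hw', rfl⟩ := hb
    refine ⟨w ++ w', ?_, by simp⟩
    intro x hx
    rcases List.mem_append.1 hx with hx | hx
    · exact hw x hx
    · exact hw' x hx
  | inv a _ ha =>
    obtain ⟨w, hw, rfl⟩ := ha
    refine ⟨(w.map fun x => x⁻¹).reverse, ?_, by rw [List.prod_inv_reverse]⟩
    intro x hx
    rw [List.mem_reverse, List.mem_map] at hx
    obtain ⟨y, hy, rfl⟩ := hx
    exact hinv y (hw y hy)

theorem pow_fin {G : Type u} [Group G] (S : Finset G) : ∀ n : ℕ, ((S : Set G) ^ n).Finite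
  | 0 => by
    rw [pow_zero]
    exact Set.finite_one
  | (n + 1) => by
    rw [pow_succ]
    exact (pow_fin S n).mul S.finite_toSet

/-- factors of an infinite word -/
def Fct {G : Type u} (S : Finset G) (x : ℕ → S) (i l : ℕ) : List G :=
  (List.range' i l).map fun k => (x k : G)

theorem limit_word {G : Type u} [Group G] (S : Finset G) (e : G → ℕ) (h1 : 1 ∈ S)
    (w : ℕ → List G) (hw : ∀ n, Nm S e (w n)) (hlen : ∀ n, n ≤ (w n).length) :
    ∃ x : ℕ → S, ∀ i l, Nm S e (Fct S x i l) := by
  classical
  have hmem : ∀ n i, (w n).getD i 1 ∈ S := by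
    intro n i
    rcases Nat.lt_or_ge i (w n).length with h | h
    · rw [List.getD_eq_getElem _ _ h]
      exact (hw n).1 _ (List.getElem_mem h)
    · rw [List.getD_eq_default _ _ h]
      exact h1
  set y : ℕ → ℕ → S := fun n i => ⟨(w n).getD i 1, hmem n i⟩ with hy
  have hlim : ∀ i, ∃ s : S, ∀ᶠ n in (hyperfilter ℕ : Filter ℕ), y n i = s := by
    intro i
    obtain ⟨s, hs⟩ := Ultrafilter.eq_pure_of_finite ((hyperfilter ℕ).map fun n => y n i)
    refine ⟨s, ?_⟩
    have h2 : ({s} : Set S) ∈ (hyperfilter ℕ).map fun n => y n i := by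
      rw [hs]
      exact Set.mem_singleton s
    exact h2
  choose x hx using hlim
  refine ⟨x, fun i l => ?_⟩
  have h2 : ∀ᶠ n in (hyperfilter ℕ : Filter ℕ), ∀ k : Fin l, y n (i + k) = x (i + k) :=
    eventually_all.2 fun k => hx (i + k)
  have h3 : ∀ᶠ n in (hyperfilter ℕ : Filter ℕ), i + l ≤ n :=
    (eventually_ge_atTop (i + l)).filter_mono Nat.hyperfilter_le_atTop
  obtain ⟨n, h4, h5⟩ := (h2.and h3).exists
  have h6 := hlen n
  have h7 : Fct S x i l = ((w n).drop i).take l := by
    apply List.ext_getElem
    · simp only [Fct, List.length_map, List.length_range', List.length_take, List.length_drop]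
      omega
    · intro k hk hk'
      have hkl : k < l := by
        simp only [Fct, List.length_map, List.length_range'] at hk
        exact hk
      have h8 := congrArg (fun s : S => (s : G)) (h4 ⟨k, hkl⟩)
      simp only [hy] at h8
      rw [List.getD_eq_getElem _ _ (by omega)] at h8
      simp only [Fct, List.getElem_map, List.getElem_range', List.getElem_take, List.getElem_drop,
        one_mul]
      exact h8.symm
  rw [h7]
  apply nm_factor S e ((w n).take i) _ (((w n).drop i).drop l)
  rw [List.append_assoc, List.take_append_drop, List.take_append_drop]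
  exact hw n

theorem fct_add {G : Type u} (S : Finset G) (x : ℕ → S) (i m n : ℕ) :
    Fct S x i (m + n) = Fct S x i m ++ Fct S x (i + m) n := by
  unfold Fct
  rw [← List.map_append, List.range'_append_1]

theorem fct_per {G : Type u} (S : Finset G) (x : ℕ → S) (i d : ℕ)
    (hper : ∀ l, i ≤ l → x (l + d) = x l) (n : ℕ) : ∀ m, Fct S x (i + m * d) n = Fct S x i n
  | 0 => by simp
  | (m + 1) => by
    rw [← fct_per S x i d hper n m]
    apply List.ext_getElem
    · simp [Fct]
    · intro k hk hk'
      simp only [Fct, List.getElem_map, List.getElem_range', one_mul]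
      have e : i + (m + 1) * d + k = (i + m * d + k) + d := by ring
      rw [e, hper _ (by nlinarith [Nat.zero_le (m * d)])]

/-- LIN. -/
theorem lin (hmhd : MhdStmt.{u}) : LinStmt.{u} := by
  intro G _ hinf htors S h1 hinv hcl C
  classical
  have hSpos : 0 < S.card := Finset.card_pos.2 ⟨1, h1⟩
  -- an injective numbering
  obtain ⟨e, he, hlt⟩ : ∃ e : G → ℕ, Set.InjOn e (S : Set G) ∧ ∀ g, e g < S.card + 1 := by
    refine ⟨fun g => if h : g ∈ S then (S.equivFin ⟨g, h⟩ : ℕ) else 0, ?_, ?_⟩
    · intro a ha b hb hab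
      have ha' : a ∈ S := ha
      have hb' : b ∈ S := hb
      simp only [dif_pos ha', dif_pos hb'] at hab
      have h2 := S.equivFin.injective (Fin.ext hab)
      exact congrArg Subtype.val h2
    · intro g
      by_cases h : g ∈ S
      · simp only [dif_pos h]
        have := (S.equivFin ⟨g, h⟩).2
        omega
      · simp only [dif_neg h]
        omega
  by_contra hcon
  push Not at hcon
  -- a small sphere
  have hsmall : ∃ n, ((S : Set G) ^ (n + 1)).ncard ≤ ((S : Set G) ^ n).ncard + (n + 1) := by
    by_contra hbig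
    push Not at hbig
    have h2 : ∀ n, n * (n + 1) ≤ 2 * ((S : Set G) ^ n).ncard := by
      intro n
      induction n with
      | zero => simp
      | succ n ih =>
        have h3 := hbig n
        nlinarith
    have h4 := h2 (2 * C + 1)
    have h5 := hcon (2 * C + 1)
    nlinarith
  obtain ⟨n, hn⟩ := hsmall
  -- long normal words
  have hlong : ∀ m, ∃ w, Nm S e w ∧ m ≤ w.length := by
    intro m
    obtain ⟨g, hg⟩ := (pow_fin S m).exists_notMem
    obtain ⟨w0, hw0, hp0⟩ := all_words S hinv hcl g
    obtain ⟨w, hw, hp⟩ := nm_exists S e w0 hw0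
    refine ⟨w, hw, ?_⟩
    by_contra hlt2
    push Not at hlt2
    apply hg
    have h2 := word_mem S w hw.1
    rw [hp, hp0] at h2
    exact Set.pow_subset_pow_right h1 hlt2.le h2
  choose w hw hlen using hlong
  obtain ⟨x, hx⟩ := limit_word S e h1 w hw hlen
  -- few factors
  have hfew : {v : Fin (n + 1) → S | ∃ i : ℕ, ∀ k : Fin (n + 1), v k = x (i + k)}.ncard ≤
      n + 1 := by
    have h2 : {v : Fin (n + 1) → S | ∃ i : ℕ, ∀ k : Fin (n + 1), v k = x (i + k)}.ncard ≤
        ((S : Set G) ^ (n + 1) \ (S : Set G) ^ n).ncard := by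
      have hlist : ∀ (v : Fin (n + 1) → S) (i : ℕ), (∀ k : Fin (n + 1), v k = x (i + k)) →
          List.ofFn (fun k => (v k : G)) = Fct S x i (n + 1) := by
        intro v i hv
        apply List.ext_getElem
        · simp [Fct]
        · intro k hk hk'
          have hk2 : k < n + 1 := by simpa using hk
          simp only [List.getElem_ofFn, Fct, List.getElem_map, List.getElem_range', one_mul]
          rw [hv ⟨k, hk2⟩]
      refine Set.ncard_le_ncard_of_injOn (fun v => (List.ofFn fun k => (v k : G)).prod) ?_ ?_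
        ((pow_fin S (n + 1)).sdiff)
      · rintro v ⟨i, hv⟩
        show (List.ofFn fun k => (v k : G)).prod ∈ _
        rw [hlist v i hv]
        have h3 := hx i (n + 1)
        have hl : (Fct S x i (n + 1)).length = n + 1 := by simp [Fct]
        refine ⟨?_, fun h4 => ?_⟩
        · have h5 := word_mem S _ h3.1
          rw [hl] at h5
          exact h5
        · obtain ⟨w', hw', hlw, hpw⟩ := mem_word S n _ h4
          have h6 := h3.2 w' hw' hpw
          rw [hl, hlw] at h6
          omega
      · rintro v ⟨i, hv⟩ v' ⟨i', hv'⟩ heq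
        have h3 : (List.ofFn fun k => (v k : G)) = List.ofFn fun k => (v' k : G) := by
          apply nm_inj S e he hlt hSpos
          · rw [hlist v i hv]
            exact hx i (n + 1)
          · rw [hlist v' i' hv']
            exact hx i' (n + 1)
          · exact heq
        have h4 := List.ofFn_injective h3
        funext k
        exact Subtype.ext (congrFun h4 k)
    have h3 : ((S : Set G) ^ (n + 1) \ (S : Set G) ^ n).ncard + ((S : Set G) ^ n).ncard =
        ((S : Set G) ^ (n + 1)).ncard :=
      Set.ncard_sdiff_add_ncard_of_subset (Set.pow_subset_pow_right h1 (by omega))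
        (pow_fin S (n + 1))
    omega
  obtain ⟨i, d, hd, hper⟩ := hmhd S x (n + 1) hfew
  have hpow : ∀ m, (Fct S x i (m * d)).prod = (Fct S x i d).prod ^ m := by
    intro m
    induction m with
    | zero => simp [Fct]
    | succ m ih =>
      rw [Nat.succ_mul, fct_add, List.prod_append, ih, fct_per S x i d hper, pow_succ]
  obtain ⟨m, hm, hm1⟩ := (isOfFinOrder_iff_pow_eq_one.1 (htors (Fct S x i d).prod))
  have h2 := (hx i (m * d)).2 [] (by intro g hg; simp at hg) (by
    rw [hpow, hm1]
    simp)
  have h3 : (Fct S x i (m * d)).length = m * d := by simp [Fct]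
  rw [h3] at h2
  have h4 : 0 < m * d := Nat.mul_pos hm hd
  simp only [List.length_nil] at h2
  omega

end Pool.Agent.FGT.H77
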